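import Mathlib

/-!
# No dense sigma-compact subgroup of the real line is plastic

Let `H ≠ ℝ` be a dense subgroup of `ℝ` which is the union of compact sets `K₀ ⊆ K₁ ⊆ …`.  All `Kₙ`
are null sets.  One constructs strictly increasing non-expansive functions `fₙ` on `ℝ` and sets
`𝒥ₙ` of pairwise disjoint closed intervals such that outside of the intervals of `𝒥ₙ` the function
`fₙ` is a translation by an element of `H` near every point and `fₙ₊₁ = fₙ`, and such that neither
the intervals nor their images under `fₙ₊₁` meet `Kₙ`.  The limit is a non-expansive bijection of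
`H`.
-/

set_option autoImplicit false

namespace Pool.Agent.Results.MP_fc2771_gt.NotPlastic

open Set MeasureTheory Filter Topology

/-- A metric space is plastic if every non-expansive bijection of it onto itself is an isometry. -/
def Plastic (X : Type) [MetricSpace X] : Prop :=
  ∀ f : X → X, Function.Bijective f → (∀ x y, dist (f x) (f y) ≤ dist x y) →
    ∀ x y, dist (f x) (f y) = dist x y

/-- A metric space is strictly convex if for all positive `a`, `b` with sum `dist x y` there is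
exactly one `z` with distance `a` from `x` and distance `b` from `y`. -/
def StrictlyConvexMetric (X : Type) [MetricSpace X] : Prop :=
  ∀ (x y : X) (a b : ℝ), 0 < a → 0 < b → a + b = dist x y → ∃! z, dist x z = a ∧ dist z y = b

/-! ### Ramps -/

/-- The function which is `0` up to `a`, `1` from `b` on, and linear on `[a, b]`. -/
noncomputable def ramp (a b x : ℝ) : ℝ := max 0 (min 1 ((x - a) / (b - a)))

lemma ramp_left {a b x : ℝ} (hab : a < b) (h : x ≤ a) : ramp a b x = 0 := by
  rw [ramp]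
  apply max_eq_left
  apply (min_le_right _ _).trans
  apply div_nonpos_of_nonpos_of_nonneg <;> linarith

lemma ramp_right {a b x : ℝ} (hab : a < b) (h : b ≤ x) : ramp a b x = 1 := by
  have h1 : 1 ≤ (x - a) / (b - a) := by
    rw [le_div_iff₀ (by linarith)]
    linarith
  rw [ramp, min_eq_left h1, max_eq_right zero_le_one]

lemma ramp_mono {a b x y : ℝ} (hab : a < b) (h : x ≤ y) : ramp a b x ≤ ramp a b y := by
  unfold ramp
  have : (x - a) / (b - a) ≤ (y - a) / (b - a) := by
    apply div_le_div_of_nonneg_right <;> linarith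
  gcongr

lemma ramp_sub_le {a b x y : ℝ} (hab : a < b) (h : x ≤ y) :
    ramp a b y - ramp a b x ≤ (y - x) / (b - a) := by
  unfold ramp
  have h0 : 0 < b - a := by linarith
  have h1 : (y - a) / (b - a) = (x - a) / (b - a) + (y - x) / (b - a) := by
    rw [← add_div]
    congr 1
    ring
  have h2 : 0 ≤ (y - x) / (b - a) := div_nonneg (by linarith) h0.le
  rw [h1]
  set p := (x - a) / (b - a)
  set q := (y - x) / (b - a)
  have h3 : max 0 (min 1 (p + q)) ≤ max 0 (min 1 p) + q := by
    apply max_le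
    · have := le_max_left 0 (min 1 p)
      linarith
    · rcases le_total 1 p with hp | hp
      · have h5 : min 1 p = 1 := min_eq_left hp
        rw [h5]
        have h6 : min 1 (p + q) ≤ 1 := min_le_left _ _
        have h7 := le_max_right 0 (1 : ℝ)
        linarith
      · have h5 : min 1 p = p := min_eq_right hp
        rw [h5]
        have h6 : min 1 (p + q) ≤ p + q := min_le_right _ _
        have h7 := le_max_right 0 p
        linarith
  linarith

/-- A function of the form `x - s - q ramp` with `0 ≤ q < b - a` is strictly increasing and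
non-expansive. -/
lemma ramp_fun {a b q x y : ℝ} (hab : a < b) (hq : 0 ≤ q) (hqb : q < b - a) (h : x < y) :
    0 < (y - x) - q * (ramp a b y - ramp a b x) ∧
      (y - x) - q * (ramp a b y - ramp a b x) ≤ y - x := by
  have h0 : 0 < b - a := by linarith
  have h1 := ramp_mono hab h.le
  have h2 := ramp_sub_le hab h.le
  constructor
  · have h3 : q * (ramp a b y - ramp a b x) ≤ q * ((y - x) / (b - a)) :=
      mul_le_mul_of_nonneg_left h2 hq
    have h4 : q * ((y - x) / (b - a)) < y - x := by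
      rw [← mul_div_assoc, div_lt_iff₀ h0, mul_comm]
      exact mul_lt_mul_of_pos_left hqb (by linarith)
    linarith
  · have := mul_nonneg hq (sub_nonneg.2 h1)
    linarith

/-! ### Pieces -/

/-- A function `g` on `[a, b]` with a set `J` of subintervals, adapted to the compact set `K`. -/
structure Piece (H : AddSubgroup ℝ) (K : Set ℝ) (a b s u : ℝ) (g : ℝ → ℝ) (J : Set (ℝ × ℝ)) :
    Prop where
  left : g a = a - s
  right : g b = b - u
  mono : ∀ x y, a ≤ x → y ≤ b → x < y → 0 < g y - g x ∧ g y - g x ≤ y - x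
  sub : ∀ I ∈ J, a < I.1 ∧ I.1 < I.2 ∧ I.2 < b
  disj : ∀ I ∈ J, ∀ I' ∈ J, ∀ x, x ∈ Icc I.1 I.2 → x ∈ Icc I'.1 I'.2 → I = I'
  node : ∀ I ∈ J, I.1 - g I.1 ∈ H ∧ I.2 - g I.2 ∈ H
  gap : ∀ x, a ≤ x → x ≤ b → (∀ I ∈ J, x ∉ Icc I.1 I.2) → x - g x ∈ H
  avoid : ∀ I ∈ J, ∀ x ∈ Icc I.1 I.2, x ∉ K
  avoid' : ∀ I ∈ J, ∀ z ∈ Icc (g I.1) (g I.2), z ∉ K

/-- Existence of a piece. -/
def HasPiece (H : AddSubgroup ℝ) (K : Set ℝ) (a b s u : ℝ) : Prop :=
  ∃ g J, Piece H K a b s u g J

lemma hasPiece_trans {H : AddSubgroup ℝ} {K : Set ℝ} {a b s : ℝ} (hs : s ∈ H) :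
    HasPiece H K a b s s :=
  ⟨fun x => x - s, ∅,
    { left := rfl
      right := rfl
      mono := fun x y _ _ h => by constructor <;> linarith
      sub := fun I hI => absurd hI (notMem_empty I)
      disj := fun I hI => absurd hI (notMem_empty I)
      node := fun I hI => absurd hI (notMem_empty I)
      gap := fun x _ _ _ => by
        simp only [sub_sub_cancel]
        exact hs
      avoid := fun I hI => absurd hI (notMem_empty I)
      avoid' := fun I hI => absurd hI (notMem_empty I) }⟩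

/-- The complement of a proper dense subgroup is dense. -/
lemma exists_notMem {H : AddSubgroup ℝ} (hd : Dense (H : Set ℝ)) (hH : H ≠ ⊤) {x y : ℝ}
    (hxy : x < y) : ∃ z, x < z ∧ z < y ∧ z ∉ H := by
  obtain ⟨c, hc⟩ : ∃ c, c ∉ H := by
    by_contra hcon
    push Not at hcon
    exact hH (eq_top_iff.2 fun c _ => hcon c)
  obtain ⟨h, hh, hh1, hh2⟩ := hd.exists_between (show x - c < y - c by linarith)
  refine ⟨h + c, by linarith, by linarith, fun hz => hc ?_⟩
  have := H.sub_mem hz hh
  rwa [add_sub_cancel_left] at this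

lemma hasPiece_single {H : AddSubgroup ℝ} (hd : Dense (H : Set ℝ)) (hH : H ≠ ⊤) {K : Set ℝ}
    (hK : IsCompact K) (hKH : K ⊆ H) {a b s u : ℝ} (hs : s ∈ H) (hu : u ∈ H) (hsu : s < u)
    (hub : u < s + (b - a)) (hKab : ∀ x ∈ Icc a b, x ∉ K) : HasPiece H K a b s u := by
  -- choose the left end point
  obtain ⟨a', ha1, ha2, ha3⟩ := exists_notMem hd hH (show a < b - (u - s) by linarith)
  have h1 : a' - s ∉ K := fun h => ha3 (by
    have := H.add_mem (hKH h) hs
    rwa [sub_add_cancel] at this)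
  obtain ⟨δ, hδ, hball⟩ := Metric.isOpen_iff.1 hK.isClosed.isOpen_compl (a' - s) h1
  -- choose the right end point
  obtain ⟨b', hb1, hb2, hb3⟩ := exists_notMem hd hH
    (show a' + (u - s) < min b (a' + (u - s) + δ) from lt_min (by linarith) (by linarith))
  have hb4 := hb2.trans_le (min_le_left _ _)
  have hb5 := hb2.trans_le (min_le_right _ _)
  have hab' : a' < b' := by linarith
  have hl : ∀ x, x ≤ a' → x - s - (u - s) * ramp a' b' x = x - s := fun x hx => by
    rw [ramp_left hab' hx]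
    ring
  have hr : ∀ x, b' ≤ x → x - s - (u - s) * ramp a' b' x = x - u := fun x hx => by
    rw [ramp_right hab' hx]
    ring
  refine ⟨fun x => x - s - (u - s) * ramp a' b' x, {(a', b')}, ?_⟩
  constructor
  · exact hl a ha1.le
  · exact hr b hb4.le
  · intro x y _ _ hxy
    have := ramp_fun (q := u - s) hab' (by linarith) (by linarith) hxy
    have e : y - s - (u - s) * ramp a' b' y - (x - s - (u - s) * ramp a' b' x) =
      (y - x) - (u - s) * (ramp a' b' y - ramp a' b' x) := by ring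
    rw [e]
    exact this
  · rintro I rfl
    exact ⟨ha1, hab', hb4⟩
  · rintro I rfl I' rfl x _ _
    rfl
  · rintro I rfl
    simp only
    rw [hl a' le_rfl, hr b' le_rfl, sub_sub_cancel, sub_sub_cancel]
    exact ⟨hs, hu⟩
  · intro x _ _ hx
    have hx' := hx (a', b') rfl
    simp only [mem_Icc, not_and_or, not_le] at hx'
    rcases hx' with h | h
    · rw [hl x h.le, sub_sub_cancel]
      exact hs
    · rw [hr x h.le, sub_sub_cancel]
      exact hu
  · rintro I rfl x hx
    exact hKab x ⟨ha1.le.trans hx.1, hx.2.trans hb4.le⟩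
  · rintro I rfl z hz
    simp only [mem_Icc] at hz
    rw [hl a' le_rfl, hr b' le_rfl] at hz
    refine hball ?_
    rw [Metric.mem_ball, Real.dist_eq, abs_lt]
    constructor <;> linarith [hz.1, hz.2]

lemma HasPiece.concat {H : AddSubgroup ℝ} {K : Set ℝ} {a c b s r u : ℝ} (hac : a ≤ c) (hcb : c ≤ b)
    (h₁ : HasPiece H K a c s r) (h₂ : HasPiece H K c b r u) : HasPiece H K a b s u := by
  classical
  obtain ⟨g₁, J₁, p₁⟩ := h₁
  obtain ⟨g₂, J₂, p₂⟩ := h₂
  have hc : g₁ c = g₂ c := p₁.right.trans p₂.left.symm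
  set g : ℝ → ℝ := fun x => if x ≤ c then g₁ x else g₂ x with hg
  have hg1 : ∀ x, x ≤ c → g x = g₁ x := fun x hx => if_pos hx
  have hg2 : ∀ x, c ≤ x → g x = g₂ x := by
    intro x hx
    rcases hx.eq_or_lt with rfl | hx
    · rw [hg1 _ le_rfl, hc]
    · exact if_neg (not_le.2 hx)
  refine ⟨g, J₁ ∪ J₂, ?_⟩
  constructor
  · rw [hg1 a hac]
    exact p₁.left
  · rw [hg2 b hcb]
    exact p₂.right
  · intro x y hx hy hxy
    rcases le_or_gt y c with hyc | hyc
    · rw [hg1 y hyc, hg1 x (hxy.le.trans hyc)]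
      exact p₁.mono x y hx hyc hxy
    · rcases le_or_gt c x with hcx | hcx
      · rw [hg2 y hyc.le, hg2 x hcx]
        exact p₂.mono x y hcx hy hxy
      · rw [hg2 y hyc.le, hg1 x hcx.le]
        have m1 := p₁.mono x c hx le_rfl hcx
        have m2 := p₂.mono c y le_rfl hy hyc
        rw [hc] at m1
        constructor <;> linarith [m1.1, m1.2, m2.1, m2.2]
  · rintro I (hI | hI)
    · obtain ⟨h1, h2, h3⟩ := p₁.sub I hI
      exact ⟨h1, h2, h3.trans_le hcb⟩
    · obtain ⟨h1, h2, h3⟩ := p₂.sub I hI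
      exact ⟨hac.trans_lt h1, h2, h3⟩
  · rintro I (hI | hI) I' (hI' | hI') x hx hx'
    · exact p₁.disj I hI I' hI' x hx hx'
    · have h1 := (p₁.sub I hI).2.2
      have h2 := (p₂.sub I' hI').1
      linarith [hx.2, hx'.1]
    · have h1 := (p₁.sub I' hI').2.2
      have h2 := (p₂.sub I hI).1
      linarith [hx.1, hx'.2]
    · exact p₂.disj I hI I' hI' x hx hx'
  · rintro I (hI | hI)
    · obtain ⟨h1, h2, h3⟩ := p₁.sub I hI
      rw [hg1 I.1 (h2.le.trans h3.le), hg1 I.2 h3.le]
      exact p₁.node I hI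
    · obtain ⟨h1, h2, h3⟩ := p₂.sub I hI
      rw [hg2 I.1 h1.le, hg2 I.2 (h1.le.trans h2.le)]
      exact p₂.node I hI
  · intro x hx hx' hgap
    rcases le_total x c with hxc | hxc
    · rw [hg1 x hxc]
      exact p₁.gap x hx hxc fun I hI => hgap I (Or.inl hI)
    · rw [hg2 x hxc]
      exact p₂.gap x hxc hx' fun I hI => hgap I (Or.inr hI)
  · rintro I (hI | hI)
    · exact p₁.avoid I hI
    · exact p₂.avoid I hI
  · rintro I (hI | hI)
    · obtain ⟨h1, h2, h3⟩ := p₁.sub I hI
      rw [hg1 I.1 (h2.le.trans h3.le), hg1 I.2 h3.le]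
      exact p₁.avoid' I hI
    · obtain ⟨h1, h2, h3⟩ := p₂.sub I hI
      rw [hg2 I.1 h1.le, hg2 I.2 (h1.le.trans h2.le)]
      exact p₂.avoid' I hI

/-- The main lemma on pieces. -/
lemma hasPiece {H : AddSubgroup ℝ} (hd : Dense (H : Set ℝ)) (hH : H ≠ ⊤) {K : Set ℝ}
    (hK : IsCompact K) (hKH : K ⊆ H) (hK0 : volume K = 0) {a b s u : ℝ} (hs : s ∈ H) (hu : u ∈ H)
    (hab : a < b) (hsu : s ≤ u) (hub : u < s + (b - a)) : HasPiece H K a b s u := by
  -- a thickening of small measure
  have hlim := tendsto_measure_cthickening_of_isCompact (μ := (volume : Measure ℝ)) hK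
  rw [hK0] at hlim
  have hε : (0 : ENNReal) < ENNReal.ofReal ((b - a) - (u - s)) :=
    ENNReal.ofReal_pos.2 (by linarith)
  obtain ⟨δ, hδ, hδ'⟩ : ∃ δ : ℝ, 0 < δ ∧
      volume (Metric.cthickening δ K) < ENNReal.ofReal ((b - a) - (u - s)) := by
    have h1 : ∀ᶠ δ in 𝓝[>] (0 : ℝ), volume (Metric.cthickening δ K) <
        ENNReal.ofReal ((b - a) - (u - s)) :=
      (hlim.eventually_lt_const hε).filter_mono nhdsWithin_le_nhds
    obtain ⟨δ, h2, h3⟩ := (h1.and self_mem_nhdsWithin).exists
    exact ⟨δ, h3, h2⟩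
  set T := Metric.cthickening δ K with hT
  have hTm : MeasurableSet T := Metric.isClosed_cthickening.measurableSet
  have hTreal : volume.real T < (b - a) - (u - s) := by
    rw [Measure.real]
    exact (ENNReal.toReal_lt_of_lt_ofReal hδ')
  -- the grid
  obtain ⟨N, hN⟩ := exists_nat_gt ((b - a) / δ)
  have hN0 : (0 : ℝ) < N := lt_trans (by apply div_pos <;> linarith) hN
  set w := (b - a) / N with hw
  have hw0 : 0 < w := div_pos (by linarith) hN0
  have hwδ : w ≤ δ := by
    rw [hw, div_le_iff₀ hN0]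
    rw [div_lt_iff₀ hδ] at hN
    linarith
  let x : ℕ → ℝ := fun i => a + i * w
  have hx : ∀ i, x (i + 1) = x i + w := fun i => by
    simp only [x]
    push_cast
    ring
  have hxa : ∀ i, a ≤ x i := fun i => by
    simp only [x]
    have : 0 ≤ (i : ℝ) * w := by positivity
    linarith
  let lam : ℕ → ℝ := fun i => volume.real (Icc a (x i) \ T)
  have hfin : ∀ i, volume (Icc a (x i) \ T) ≠ ⊤ := fun i =>
    ne_top_of_le_ne_top (by simp) (measure_mono sdiff_subset)
  have hlam1 : ∀ i, lam (i + 1) ≤ lam i + w := by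
    intro i
    have h1 : Icc a (x (i + 1)) \ T ⊆ (Icc a (x i) \ T) ∪ Icc (x i) (x (i + 1)) := by
      rintro y ⟨⟨hy1, hy2⟩, hy3⟩
      rcases le_total y (x i) with h | h
      · exact Or.inl ⟨⟨hy1, h⟩, hy3⟩
      · exact Or.inr ⟨h, hy2⟩
    have h2 : volume.real (Icc (x i) (x (i + 1))) = w := by
      rw [Real.volume_real_Icc, hx]
      simp [hw0.le]
    calc lam (i + 1) ≤ volume.real ((Icc a (x i) \ T) ∪ Icc (x i) (x (i + 1))) :=
          measureReal_mono h1 (by
            refine measure_union_ne_top (hfin i) (by simp))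
      _ ≤ lam i + volume.real (Icc (x i) (x (i + 1))) := measureReal_union_le _ _
      _ = lam i + w := by rw [h2]
  have hlam2 : ∀ i, (∃ y ∈ Icc (x i) (x (i + 1)), y ∈ K) → lam (i + 1) ≤ lam i := by
    rintro i ⟨y, hy, hyK⟩
    apply measureReal_mono _ (hfin i)
    rintro z ⟨⟨hz1, hz2⟩, hz3⟩
    refine ⟨⟨hz1, ?_⟩, hz3⟩
    by_contra hlt
    push Not at hlt
    apply hz3
    refine Metric.mem_cthickening_of_dist_le z y δ K hyK ?_
    rw [Real.dist_eq, abs_le]
    have := hx i
    constructor <;> linarith [hy.1, hy.2]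
  -- induction along the grid
  have key : ∀ i, ∀ r ∈ H, 0 ≤ r → (r = 0 ∨ r < lam i) → HasPiece H K a (x i) s (s + r) := by
    intro i
    induction i with
    | zero =>
      intro r _ hr0 hr1
      have h1 : x 0 = a := by simp [x]
      have h2 : lam 0 = 0 := by
        simp only [lam, h1, Icc_self]
        rw [Measure.real, measure_mono_null sdiff_subset (by simp)]
        simp
      have h3 : r = 0 := by
        rcases hr1 with h | h
        · exact h
        · rw [h2] at h
          linarith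
      rw [h3, add_zero]
      exact hasPiece_trans hs
    | succ i ih =>
      intro r hr hr0 hr1
      have hstep : x i ≤ x (i + 1) := by rw [hx]; linarith
      by_cases hbad : ∃ y ∈ Icc (x i) (x (i + 1)), y ∈ K
      · have h1 := hlam2 i hbad
        refine (ih r hr hr0 ?_).concat (hxa i) hstep (hasPiece_trans (H.add_mem hs hr))
        rcases hr1 with h | h
        · exact Or.inl h
        · exact Or.inr (h.trans_le h1)
      · push Not at hbad
        -- split `r = r' + r''`
        obtain ⟨r', hr', hr'0, hr'1, hr'2, hr'3⟩ : ∃ r' ∈ H, 0 ≤ r' ∧ (r' = 0 ∨ r' < lam i) ∧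
            r' ≤ r ∧ r - r' < w := by
          by_cases hrw : r < w
          · exact ⟨0, H.zero_mem, le_rfl, Or.inl rfl, hr0, by linarith⟩
          · push Not at hrw
            have h1 := hlam1 i
            have h2 : r < lam (i + 1) := by
              rcases hr1 with h | h
              · linarith
              · exact h
            obtain ⟨h, hh, hh1, hh2⟩ := hd.exists_between
              (show r - w < min (lam i) r from lt_min (by linarith) (by linarith))
            exact ⟨h, hh, by linarith, Or.inr (hh2.trans_le (min_le_left _ _)),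
              (hh2.trans_le (min_le_right _ _)).le, by linarith⟩
        refine (ih r' hr' hr'0 hr'1).concat (hxa i) hstep ?_
        rcases hr'2.eq_or_lt with h | h
        · rw [h]
          exact hasPiece_trans (H.add_mem hs hr)
        · refine hasPiece_single hd hH hK hKH (H.add_mem hs hr') (H.add_mem hs hr) (by linarith)
            ?_ hbad
          rw [hx]
          linarith
  have hxN : x N = b := by
    simp only [x, hw]
    field_simp
    ring
  have hlamN : u - s < lam N := by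
    simp only [lam, hxN]
    have h1 : volume.real (Icc a b) ≤ volume.real (Icc a b \ T) + volume.real T := by
      refine (measureReal_mono (fun y hy => ?_) ?_).trans (measureReal_union_le _ _)
      · by_cases h : y ∈ T
        · exact Or.inr h
        · exact Or.inl ⟨hy, h⟩
      · exact measure_union_ne_top (ne_top_of_le_ne_top (by simp) (measure_mono sdiff_subset))
          (ne_top_of_lt hδ')
    rw [Real.volume_real_Icc, max_eq_left (by linarith)] at h1
    linarith
  have := key N (u - s) (H.sub_mem hu hs) (by linarith) (Or.inr hlamN)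
  rw [hxN, add_sub_cancel] at this
  exact this

/-! ### The inductive construction -/

/-- A strictly increasing non-expansive function `f` and a set `J` of pairwise disjoint closed
intervals outside of which, and at the end points of which, `f` differs from the identity by
elements of `H`. -/
structure State (H : AddSubgroup ℝ) (f : ℝ → ℝ) (J : Set (ℝ × ℝ)) : Prop where
  mono : ∀ x y, x < y → 0 < f y - f x ∧ f y - f x ≤ y - x
  sub : ∀ I ∈ J, I.1 < I.2
  disj : ∀ I ∈ J, ∀ I' ∈ J, ∀ x, x ∈ Icc I.1 I.2 → x ∈ Icc I'.1 I'.2 → I = I'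
  node : ∀ I ∈ J, I.1 - f I.1 ∈ H ∧ I.2 - f I.2 ∈ H
  gap : ∀ x, (∀ I ∈ J, x ∉ Icc I.1 I.2) → x - f x ∈ H

/-- The refinement step. -/
lemma State.step {H : AddSubgroup ℝ} (hd : Dense (H : Set ℝ)) (hH : H ≠ ⊤) {f : ℝ → ℝ}
    {J : Set (ℝ × ℝ)} (hS : State H f J) {K : Set ℝ}
    (hK : IsCompact K) (hKH : K ⊆ H) (hK0 : volume K = 0) :
    ∃ f' J', State H f' J' ∧
      (∀ x, (∀ I ∈ J, x ∉ Icc I.1 I.2) → f' x = f x ∧ ∀ I ∈ J', x ∉ Icc I.1 I.2) ∧
      (∀ I ∈ J', ∀ x ∈ Icc I.1 I.2, x ∉ K) ∧
      (∀ I ∈ J', ∀ z ∈ Icc (f' I.1) (f' I.2), z ∉ K) := by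
  classical
  have hp : ∀ I : ℝ × ℝ, ∃ g Js, I ∈ J → Piece H K I.1 I.2 (I.1 - f I.1) (I.2 - f I.2) g Js := by
    intro I
    by_cases hI : I ∈ J
    · obtain ⟨h1, h2⟩ := hS.node I hI
      have h3 := hS.mono _ _ (hS.sub I hI)
      obtain ⟨g, Js, h⟩ := hasPiece hd hH hK hKH hK0 h1 h2 (hS.sub I hI) (by linarith [h3.2])
        (by linarith [h3.1])
      exact ⟨g, Js, fun _ => h⟩
    · exact ⟨0, ∅, fun h => absurd h hI⟩
  choose g Js hp using hp
  let f' : ℝ → ℝ := fun x => if h : ∃ I ∈ J, x ∈ Icc I.1 I.2 then g h.choose x else f x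
  have hf1 : ∀ I ∈ J, ∀ x ∈ Icc I.1 I.2, f' x = g I x := by
    intro I hI x hx
    have h : ∃ I ∈ J, x ∈ Icc I.1 I.2 := ⟨I, hI, hx⟩
    have h1 : f' x = g h.choose x := dif_pos h
    have h2 : h.choose = I :=
      hS.disj _ h.choose_spec.1 I hI x h.choose_spec.2 hx
    rw [h1, h2]
  have hf2 : ∀ x, (∀ I ∈ J, x ∉ Icc I.1 I.2) → f' x = f x := by
    intro x hx
    exact dif_neg (by push Not; exact hx)
  -- anchors
  have hr : ∀ x y, x < y → (¬ ∃ I ∈ J, x ∈ Icc I.1 I.2 ∧ y ∈ Icc I.1 I.2) →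
      ∃ r l, x ≤ r ∧ r < l ∧ l ≤ y ∧ 0 ≤ f r - f' x ∧ f r - f' x ≤ r - x ∧
        0 ≤ f' y - f l ∧ f' y - f l ≤ y - l := by
    intro x y hxy hno
    have hx : ∃ r, x ≤ r ∧ 0 ≤ f r - f' x ∧ f r - f' x ≤ r - x ∧ r < y ∧
        ((∀ I ∈ J, x ∉ Icc I.1 I.2) ∧ r = x ∨ ∃ I ∈ J, x ∈ Icc I.1 I.2 ∧ r = I.2) := by
      by_cases h : ∃ I ∈ J, x ∈ Icc I.1 I.2
      · obtain ⟨I, hI, hxI⟩ := h
        have p := hp I hI
        have e : g I I.2 = f I.2 := by rw [p.right]; ring
        refine ⟨I.2, hxI.2, ?_, ?_, ?_, Or.inr ⟨I, hI, hxI, rfl⟩⟩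
        · rw [hf1 I hI x hxI, ← e]
          rcases hxI.2.eq_or_lt with h | h
          · rw [← h, sub_self]
          · exact (p.mono x I.2 hxI.1 le_rfl h).1.le
        · rw [hf1 I hI x hxI, ← e]
          rcases hxI.2.eq_or_lt with h | h
          · rw [← h, sub_self, sub_self]
          · exact (p.mono x I.2 hxI.1 le_rfl h).2
        · by_contra hle
          push Not at hle
          exact hno ⟨I, hI, hxI, hxI.1.trans hxy.le, hle⟩
      · push Not at h
        refine ⟨x, le_rfl, ?_, ?_, hxy, Or.inl ⟨h, rfl⟩⟩ <;> rw [hf2 x h] <;> linarith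
    obtain ⟨r, hr1, hr2, hr3, hr4, hr5⟩ := hx
    by_cases h : ∃ I ∈ J, y ∈ Icc I.1 I.2
    · obtain ⟨I, hI, hyI⟩ := h
      have p := hp I hI
      have e : g I I.1 = f I.1 := by rw [p.left]; ring
      refine ⟨r, I.1, hr1, ?_, hyI.1, hr2, hr3, ?_, ?_⟩
      · by_contra hle
        push Not at hle
        have hrI : r ∈ Icc I.1 I.2 := ⟨hle, hr4.le.trans hyI.2⟩
        rcases hr5 with ⟨h1, h2⟩ | ⟨I', hI', h1, h2⟩
        · rw [h2] at hrI
          exact h1 I hI hrI
        · have h3 : r ∈ Icc I'.1 I'.2 := by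
            rw [h2]
            exact ⟨(hS.sub I' hI').le, le_rfl⟩
          have h4 := hS.disj I hI I' hI' r hrI h3
          rw [← h4] at h2
          linarith [hyI.2]
      · rw [hf1 I hI y hyI, ← e]
        rcases hyI.1.eq_or_lt with h | h
        · rw [← h, sub_self]
        · exact (p.mono I.1 y le_rfl hyI.2 h).1.le
      · rw [hf1 I hI y hyI, ← e]
        rcases hyI.1.eq_or_lt with h | h
        · rw [← h, sub_self, sub_self]
        · exact (p.mono I.1 y le_rfl hyI.2 h).2
    · push Not at h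
      refine ⟨r, y, hr1, hr4, le_rfl, hr2, hr3, ?_, ?_⟩ <;> rw [hf2 y h] <;> linarith
  refine ⟨f', ⋃ I ∈ J, Js I, ?_, ?_, ?_, ?_⟩
  · constructor
    · intro x y hxy
      by_cases h : ∃ I ∈ J, x ∈ Icc I.1 I.2 ∧ y ∈ Icc I.1 I.2
      · obtain ⟨I, hI, hxI, hyI⟩ := h
        rw [hf1 I hI x hxI, hf1 I hI y hyI]
        exact (hp I hI).mono x y hxI.1 hyI.2 hxy
      · obtain ⟨r, l, h1, h2, h3, h4, h5, h6, h7⟩ := hr x y hxy h
        have h8 := hS.mono r l h2
        constructor <;> linarith [h8.1, h8.2]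
    · intro I' hI'
      obtain ⟨I, hI, hI'⟩ := mem_iUnion₂.1 hI'
      exact ((hp I hI).sub I' hI').2.1
    · intro I' hI' I'' hI'' x hx hx'
      obtain ⟨I, hI, hI'⟩ := mem_iUnion₂.1 hI'
      obtain ⟨L, hL, hI''⟩ := mem_iUnion₂.1 hI''
      have s1 := (hp I hI).sub I' hI'
      have s2 := (hp L hL).sub I'' hI''
      have h1 : x ∈ Icc I.1 I.2 := ⟨s1.1.le.trans hx.1, hx.2.trans s1.2.2.le⟩
      have h2 : x ∈ Icc L.1 L.2 := ⟨s2.1.le.trans hx'.1, hx'.2.trans s2.2.2.le⟩
      have h3 := hS.disj I hI L hL x h1 h2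
      subst h3
      exact (hp I hI).disj I' hI' I'' hI'' x hx hx'
    · intro I' hI'
      obtain ⟨I, hI, hI'⟩ := mem_iUnion₂.1 hI'
      obtain ⟨s1, s2, s3⟩ := (hp I hI).sub I' hI'
      rw [hf1 I hI I'.1 ⟨s1.le, s2.le.trans s3.le⟩, hf1 I hI I'.2 ⟨s1.le.trans s2.le, s3.le⟩]
      exact (hp I hI).node I' hI'
    · intro x hx
      by_cases h : ∃ I ∈ J, x ∈ Icc I.1 I.2
      · obtain ⟨I, hI, hxI⟩ := h
        rw [hf1 I hI x hxI]
        exact (hp I hI).gap x hxI.1 hxI.2 fun I' hI' => hx I' (mem_iUnion₂.2 ⟨I, hI, hI'⟩)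
      · push Not at h
        rw [hf2 x h]
        exact hS.gap x h
  · intro x hx
    refine ⟨hf2 x hx, fun I' hI' hxI' => ?_⟩
    obtain ⟨I, hI, hI'⟩ := mem_iUnion₂.1 hI'
    obtain ⟨s1, s2, s3⟩ := (hp I hI).sub I' hI'
    exact hx I hI ⟨s1.le.trans hxI'.1, hxI'.2.trans s3.le⟩
  · intro I' hI' x hx
    obtain ⟨I, hI, hI'⟩ := mem_iUnion₂.1 hI'
    exact (hp I hI).avoid I' hI' x hx
  · intro I' hI' z hz
    obtain ⟨I, hI, hI'⟩ := mem_iUnion₂.1 hI'
    obtain ⟨s1, s2, s3⟩ := (hp I hI).sub I' hI'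
    rw [hf1 I hI I'.1 ⟨s1.le, s2.le.trans s3.le⟩, hf1 I hI I'.2 ⟨s1.le.trans s2.le, s3.le⟩] at hz
    exact (hp I hI).avoid' I' hI' z hz

/-- Compact subsets of a proper subgroup are null sets. -/
lemma volume_eq_zero {H : AddSubgroup ℝ} (hH : H ≠ ⊤) {K : Set ℝ} (hK : IsCompact K)
    (hKH : K ⊆ H) : volume K = 0 := by
  by_contra hpos
  have h1 := MeasureTheory.Measure.sub_mem_nhds_zero_of_addHaar_pos volume K
    hK.isClosed.measurableSet (pos_iff_ne_zero.2 hpos)
  obtain ⟨ε, hε, hball⟩ := Metric.mem_nhds_iff.1 h1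
  apply hH
  rw [eq_top_iff]
  intro x _
  obtain ⟨n, hn⟩ := exists_nat_gt (|x| / ε)
  have hn0 : (0 : ℝ) < n := lt_of_le_of_lt (by positivity) hn
  have h2 : x / n ∈ Metric.ball (0 : ℝ) ε := by
    rw [mem_ball_zero_iff, Real.norm_eq_abs, abs_div, Nat.abs_cast, div_lt_iff₀ hn0]
    rwa [div_lt_iff₀ hε, mul_comm] at hn
  obtain ⟨y, hy, z, hz, hyz⟩ := Set.mem_sub.1 (hball h2)
  have h3 : x / n ∈ H := by
    rw [← hyz]
    exact H.sub_mem (hKH hy) (hKH hz)
  have h4 : x = n • (x / n) := by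
    rw [nsmul_eq_mul]
    field_simp
  rw [h4]
  exact H.nsmul_mem h3 n

/-- The case of a proper subgroup. -/
lemma not_plastic_of_ne_top {H : AddSubgroup ℝ} (hd : Dense (H : Set ℝ))
    (hσ : IsSigmaCompact (H : Set ℝ)) (hH : H ≠ ⊤) : ¬ Plastic H := by
  obtain ⟨K, hK, hKH⟩ := hσ
  have hKsub : ∀ n, K n ⊆ H := fun n => by
    rw [← hKH]
    exact subset_iUnion K n
  -- the initial state
  obtain ⟨m, hm, hm0, hm1⟩ := hd.exists_between (show (0 : ℝ) < 1 by norm_num)
  have h0 : State H (fun x => x - m * ramp 0 1 x) {((0 : ℝ), (1 : ℝ))} := by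
    constructor
    · intro x y hxy
      have := ramp_fun (a := 0) (b := 1) (q := m) zero_lt_one hm0.le (by linarith) hxy
      have e : y - m * ramp 0 1 y - (x - m * ramp 0 1 x) =
        (y - x) - m * (ramp 0 1 y - ramp 0 1 x) := by ring
      rw [e]
      exact this
    · rintro I rfl
      exact zero_lt_one
    · rintro I rfl I' rfl x _ _
      rfl
    · rintro I rfl
      simp only
      rw [ramp_left zero_lt_one le_rfl, ramp_right zero_lt_one le_rfl]
      constructor
      · simp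
      · simpa using hm
    · intro x hx
      have hx' := hx (0, 1) rfl
      simp only [mem_Icc, not_and_or, not_le] at hx'
      rcases hx' with h | h
      · rw [ramp_left zero_lt_one h.le]
        simp
      · rw [ramp_right zero_lt_one h.le]
        simpa using hm
  -- the sequence of states
  have hstep : ∀ (n : ℕ) (S : {p : (ℝ → ℝ) × Set (ℝ × ℝ) // State H p.1 p.2}),
      ∃ T : {p : (ℝ → ℝ) × Set (ℝ × ℝ) // State H p.1 p.2},
        (∀ x, (∀ I ∈ S.1.2, x ∉ Icc I.1 I.2) →
          T.1.1 x = S.1.1 x ∧ ∀ I ∈ T.1.2, x ∉ Icc I.1 I.2) ∧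
        (∀ I ∈ T.1.2, ∀ x ∈ Icc I.1 I.2, x ∉ K n) ∧
        (∀ I ∈ T.1.2, ∀ z ∈ Icc (T.1.1 I.1) (T.1.1 I.2), z ∉ K n) := by
    rintro n ⟨⟨f, J⟩, hS⟩
    obtain ⟨f', J', h1, h2, h3, h4⟩ := hS.step hd hH (hK n) (hKsub n)
      (volume_eq_zero hH (hK n) (hKsub n))
    exact ⟨⟨(f', J'), h1⟩, h2, h3, h4⟩
  choose next hnext using hstep
  let S : (n : ℕ) → {p : (ℝ → ℝ) × Set (ℝ × ℝ) // State H p.1 p.2} := fun n =>
    Nat.rec ⟨(fun x => x - m * ramp 0 1 x, {((0 : ℝ), (1 : ℝ))}), h0⟩ next n
  let f : ℕ → ℝ → ℝ := fun n => (S n).1.1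
  let V : ℕ → Set ℝ := fun n => {x | ∀ I ∈ (S n).1.2, x ∉ Icc I.1 I.2}
  have hSn : ∀ n, State H (f n) (S n).1.2 := fun n => (S n).2
  have hV1 : ∀ n, ∀ x ∈ V n, f (n + 1) x = f n x ∧ x ∈ V (n + 1) := fun n x hx =>
    (hnext n (S n)).1 x hx
  have hV2 : ∀ n, ∀ x ∈ K n, x ∈ V (n + 1) := fun n x hx I hI hxI =>
    (hnext n (S n)).2.1 I hI x hxI hx
  have hV3 : ∀ n, ∀ I ∈ (S (n + 1)).1.2, ∀ z ∈ Icc (f (n + 1) I.1) (f (n + 1) I.2), z ∉ K n :=
    fun n I hI z hz => (hnext n (S n)).2.2 I hI z hz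
  have hVle : ∀ n k, ∀ x ∈ V n, f (n + k) x = f n x ∧ x ∈ V (n + k) := by
    intro n k
    induction k with
    | zero => exact fun x hx => ⟨rfl, hx⟩
    | succ k ih =>
      intro x hx
      obtain ⟨h1, h2⟩ := ih x hx
      obtain ⟨h3, h4⟩ := hV1 _ x h2
      exact ⟨h3.trans h1, h4⟩
  -- all functions agree with the initial one outside of `[0, 1]`
  have hout : ∀ x, x ∉ Icc (0 : ℝ) 1 → x ∈ V 0 := by
    rintro x hx I rfl
    exact hx
  have hneg : ∀ n x, x < 0 → f n x = x := by
    intro n x hx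
    have h1 := (hVle 0 n x (hout x fun h => not_lt.2 h.1 hx)).1
    rw [zero_add] at h1
    rw [h1]
    change x - m * ramp 0 1 x = x
    rw [ramp_left zero_lt_one hx.le]
    ring
  have hposi : ∀ n x, 1 < x → f n x = x - m := by
    intro n x hx
    have h1 := (hVle 0 n x (hout x fun h => not_lt.2 h.2 hx)).1
    rw [zero_add] at h1
    rw [h1]
    change x - m * ramp 0 1 x = x - m
    rw [ramp_right zero_lt_one hx.le]
    ring
  -- surjectivity on the line
  have hsurj : ∀ n, Function.Surjective (f n) := by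
    intro n
    have hcont : Continuous (f n) := by
      have : LipschitzWith 1 (f n) := by
        refine LipschitzWith.of_le_add fun x y => ?_
        rcases lt_trichotomy x y with h | h | h
        · have := ((hSn n).mono x y h).1
          have h2 := dist_nonneg (x := x) (y := y)
          linarith
        · rw [h, dist_self, add_zero]
        · have := ((hSn n).mono y x h).2
          rw [Real.dist_eq, abs_of_pos (by linarith)]
          linarith
      exact this.continuous
    refine hcont.surjective ?_ ?_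
    · have h1 : Tendsto (fun x : ℝ => x - m) atTop atTop := tendsto_atTop_add_const_right _ _ tendsto_id
      refine h1.congr' ?_
      filter_upwards [eventually_gt_atTop (1 : ℝ)] with x hx
      exact (hposi n x hx).symm
    · refine tendsto_id.congr' ?_
      filter_upwards [eventually_lt_atBot (0 : ℝ)] with x hx
      exact (hneg n x hx).symm
  -- the limit
  have hex : ∀ x : H, ∃ n, (x : ℝ) ∈ V n := by
    intro x
    have : (x : ℝ) ∈ ⋃ n, K n := by
      rw [hKH]
      exact x.2
    obtain ⟨n, hn⟩ := mem_iUnion.1 this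
    exact ⟨n + 1, hV2 n x hn⟩
  choose N hN using hex
  have hgap : ∀ n, ∀ x ∈ V n, x - f n x ∈ H := fun n x hx => (hSn n).gap x hx
  let F : H → H := fun x => ⟨f (N x) x, by
    have := H.sub_mem x.2 (hgap (N x) x (hN x))
    rwa [sub_sub_cancel] at this⟩
  have hF : ∀ (x : H) (n : ℕ), (x : ℝ) ∈ V n → (F x : ℝ) = f n x := by
    intro x n hx
    change f (N x) x = f n x
    have h1 := (hVle (N x) n x (hN x)).1
    have h2 := (hVle n (N x) x hx).1
    rw [add_comm] at h2
    rw [← h1, h2]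
  have hcommon : ∀ x y : H, ∃ n, (F x : ℝ) = f n x ∧ (F y : ℝ) = f n y := by
    intro x y
    refine ⟨N x + N y, hF x _ (hVle (N x) (N y) x (hN x)).2, hF y _ ?_⟩
    rw [add_comm]
    exact (hVle (N y) (N x) y (hN y)).2
  intro hpl
  have hbij : Function.Bijective F := by
    constructor
    · intro x y hxy
      obtain ⟨n, h1, h2⟩ := hcommon x y
      have h3 : f n x = f n y := by rw [← h1, ← h2, hxy]
      by_contra hne
      have hne' : (x : ℝ) ≠ y := fun h => hne (Subtype.ext h)
      rcases lt_or_gt_of_ne hne' with h | h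
      · have := ((hSn n).mono _ _ h).1
        linarith
      · have := ((hSn n).mono _ _ h).1
        linarith
    · intro z
      have : (z : ℝ) ∈ ⋃ n, K n := by
        rw [hKH]
        exact z.2
      obtain ⟨n, hn⟩ := mem_iUnion.1 this
      obtain ⟨x, hx⟩ := hsurj (n + 1) z
      have hxV : x ∈ V (n + 1) := by
        intro I hI hxI
        have hmono : ∀ u v, u ≤ v → f (n + 1) u ≤ f (n + 1) v := by
          intro u v huv
          rcases huv.eq_or_lt with h | h
          · rw [h]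
          · linarith [((hSn (n + 1)).mono u v h).1]
        refine hV3 n I hI (z : ℝ) ?_ hn
        rw [← hx]
        exact ⟨hmono _ _ hxI.1, hmono _ _ hxI.2⟩
      have hxH : x ∈ H := by
        have := H.add_mem (hgap (n + 1) x hxV) z.2
        rwa [← hx, sub_add_cancel] at this
      exact ⟨⟨x, hxH⟩, Subtype.ext ((hF ⟨x, hxH⟩ (n + 1) hxV).trans hx)⟩
  have hnonexp : ∀ x y : H, dist (F x) (F y) ≤ dist x y := by
    intro x y
    obtain ⟨n, h1, h2⟩ := hcommon x y
    rw [Subtype.dist_eq, Subtype.dist_eq, h1, h2, Real.dist_eq, Real.dist_eq]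
    rcases lt_trichotomy (x : ℝ) y with h | h | h
    · have := (hSn n).mono _ _ h
      rw [abs_of_neg (by linarith [this.1]), abs_of_neg (by linarith)]
      linarith [this.2]
    · rw [h, sub_self, sub_self]
    · have := (hSn n).mono _ _ h
      rw [abs_of_pos (by linarith [this.1]), abs_of_pos (by linarith)]
      linarith [this.2]
  -- the limit is not an isometry
  obtain ⟨a, ha, -, ha0⟩ := hd.exists_between (show (-1 : ℝ) < 0 by norm_num)
  obtain ⟨b, hb, hb1, -⟩ := hd.exists_between (show (1 : ℝ) < 2 by norm_num)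
  have h1 := hpl F hbij hnonexp ⟨a, ha⟩ ⟨b, hb⟩
  obtain ⟨n, h2, h3⟩ := hcommon ⟨a, ha⟩ ⟨b, hb⟩
  rw [Subtype.dist_eq, Subtype.dist_eq, h2, h3, Real.dist_eq, Real.dist_eq] at h1
  simp only at h1
  rw [hneg n a ha0, hposi n b hb1, abs_of_neg (by linarith), abs_of_neg (by linarith)] at h1
  linarith

/-- No dense sigma-compact subgroup of `ℝ` is plastic. -/
theorem not_plastic (H : AddSubgroup ℝ) (hd : Dense (H : Set ℝ))
    (hσ : IsSigmaCompact (H : Set ℝ)) : ¬ Plastic H := by
  by_cases hH : H = ⊤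
  · subst hH
    intro hpl
    have h1 := hpl (fun x => ⟨(x : ℝ) / 2, trivial⟩) ⟨fun x y hxy => ?_, fun y => ?_⟩
      (fun x y => ?_) ⟨0, trivial⟩ ⟨1, trivial⟩
    · rw [Subtype.dist_eq, Subtype.dist_eq, Real.dist_eq, Real.dist_eq] at h1
      norm_num at h1
    · have h2 : (x : ℝ) / 2 = y / 2 := congrArg Subtype.val hxy
      exact Subtype.ext (by linarith)
    · exact ⟨⟨2 * (y : ℝ), trivial⟩, Subtype.ext (by simp)⟩
    · rw [Subtype.dist_eq, Subtype.dist_eq, Real.dist_eq, Real.dist_eq]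
      simp only
      rw [← sub_div, abs_div, abs_two]
      linarith [abs_nonneg ((x : ℝ) - y)]
  · exact not_plastic_of_ne_top hd hσ hH

/-- The real line is a strictly convex metric space. -/
lemma strictlyConvex_real : StrictlyConvexMetric ℝ := by
  intro x y a b ha hb hab
  have hxy : x ≠ y := by
    rintro rfl
    rw [dist_self] at hab
    linarith
  rcases lt_or_gt_of_ne hxy with h | h
  · rw [Real.dist_eq, abs_of_neg (by linarith)] at hab
    refine ⟨x + a, ⟨?_, ?_⟩, ?_⟩
    · rw [Real.dist_eq, abs_of_neg (by linarith)]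
      ring
    · rw [Real.dist_eq, abs_of_neg (by linarith)]
      linarith
    · rintro z ⟨h1, h2⟩
      rw [Real.dist_eq] at h1 h2
      rcases abs_cases (x - z) with h3 | h3 <;> rcases abs_cases (z - y) with h4 | h4 <;> linarith
  · rw [Real.dist_eq, abs_of_pos (by linarith)] at hab
    refine ⟨x - a, ⟨?_, ?_⟩, ?_⟩
    · rw [Real.dist_eq, abs_of_pos (by linarith)]
      ring
    · rw [Real.dist_eq, abs_of_pos (by linarith)]
      linarith
    · rintro z ⟨h1, h2⟩
      rw [Real.dist_eq] at h1 h2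
      rcases abs_cases (x - z) with h3 | h3 <;> rcases abs_cases (z - y) with h4 | h4 <;> linarith

/-- Q2: no dense sigma-compact subgroup of `ℝ` is plastic.  Q1: hence there is a separable strictly
convex metric abelian group without dense sigma-compact plastic subgroup. -/
theorem result :
    (∀ H : AddSubgroup ℝ, Dense (H : Set ℝ) → IsSigmaCompact (H : Set ℝ) → ¬ Plastic H) ∧
    ∃ (G : Type) (_ : AddCommGroup G) (_ : MetricSpace G),
      (∀ x y z : G, dist (x + z) (y + z) = dist x y) ∧ TopologicalSpace.SeparableSpace G ∧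
      StrictlyConvexMetric G ∧
      ∀ H : AddSubgroup G, Dense (H : Set G) → IsSigmaCompact (H : Set G) → ¬ Plastic H :=
  ⟨not_plastic, ℝ, inferInstance, inferInstance, fun x y z => dist_add_right x y z, inferInstance,
    strictlyConvex_real, not_plastic⟩

end Pool.Agent.Results.MP_fc2771_gt.NotPlastic
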